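import Pool.Agent.Helper89.EX.Defs

/-!
# MP_5176ab_co: module HM (homogeneous subfamilies, Füredi)
-/

set_option autoImplicit false

namespace EX

open Finset SimpleGraph Filter Topology

open scoped Classical

namespace HM

variable {r : ℕ} {V : Type}

theorem agr_ne_univ {e e' : Fin r → V} (h : e ≠ e') : agr e e' ≠ univ := by
  intro h1
  apply h
  funext i
  have : i ∈ agr e e' := by rw [h1]; exact mem_univ i
  simpa [agr] using this

theorem mem_agr {e e' : Fin r → V} {i : Fin r} : i ∈ agr e e' ↔ e i = e' i := by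
  simp [agr]

theorem ker_mono {s : ℕ} {F G : Finset (Fin r → V)} (h : F ⊆ G) {A : Finset (Fin r)}
    {e : Fin r → V} (hk : Ker s F A e) : Ker s G A e := by
  obtain ⟨T, hT, h1, h2, h3⟩ := hk
  exact ⟨T, hT.trans h, h1, h2, h3⟩

theorem ker_congr {s : ℕ} {F : Finset (Fin r → V)} {A : Finset (Fin r)}
    {e e' : Fin r → V} (h : ∀ i ∈ A, e i = e' i) (hk : Ker s F A e) : Ker s F A e' := by
  obtain ⟨T, hT, h1, h2, h3⟩ := hk
  exact ⟨T, hT, h1, fun t ht i hi => (h2 t ht i hi).trans (h i hi), h3⟩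

/-- pigeonhole in a fibre -/
theorem fibre {s : ℕ} {F : Finset (Fin r → V)} {A : Finset (Fin r)} (hA : A ≠ univ)
    {y : Fin r → V} (hy : ¬ Ker s F A y) :
    ∃ G ⊆ F.filter (fun e => ∀ i ∈ A, e i = y i),
      (F.filter (fun e => ∀ i ∈ A, e i = y i)).card ≤ (s * r + 1) * G.card ∧
      ∃ i ∉ A, ∃ v, ∀ e ∈ G, e i = v := by
  set Fy := F.filter (fun e => ∀ i ∈ A, e i = y i) with hFy
  obtain ⟨i0, hi0⟩ : ∃ i, i ∉ A := by
    by_contra hcon
    push Not at hcon
    exact hA (eq_univ_iff_forall.2 hcon)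
  -- a maximal set
  set P : Finset (Finset (Fin r → V)) :=
    Fy.powerset.filter (fun T => ∀ t ∈ T, ∀ t' ∈ T, t ≠ t' → agr t t' = A) with hP
  have hPne : P.Nonempty := ⟨∅, by simp [hP]⟩
  obtain ⟨T, hTP, hTmax⟩ := exists_max_image P card hPne
  rw [hP, mem_filter, mem_powerset] at hTP
  obtain ⟨hTF, hT⟩ := hTP
  have hTs : T.card < s := by
    by_contra hcon
    push Not at hcon
    apply hy
    refine ⟨T, hTF.trans (filter_subset _ _), hcon, fun t ht i hi => ?_, hT⟩
    exact (mem_filter.1 (hTF ht)).2 i hi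
  have hcov : ∀ e ∈ Fy, ∃ p ∈ T ×ˢ (univ : Finset (Fin r)), p.2 ∉ A ∧ e p.2 = p.1 p.2 := by
    intro e he
    by_cases heT : e ∈ T
    · exact ⟨(e, i0), by simp [heT], hi0, rfl⟩
    by_contra hcon
    push Not at hcon
    have hag : ∀ t ∈ T, agr e t = A := by
      intro t ht
      ext i
      rw [mem_agr]
      constructor
      · intro h1
        by_contra h2
        exact hcon (t, i) (by simp [ht]) h2 h1
      · intro h1
        rw [(mem_filter.1 he).2 i h1, (mem_filter.1 (hTF ht)).2 i h1]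
    have hin : insert e T ∈ P := by
      rw [hP, mem_filter, mem_powerset]
      refine ⟨insert_subset he hTF, ?_⟩
      intro t ht t' ht' hne
      rw [mem_insert] at ht ht'
      rcases ht with rfl | ht <;> rcases ht' with rfl | ht'
      · exact absurd rfl hne
      · exact hag t' ht'
      · have := hag t ht
        rw [← this]
        ext i
        rw [mem_agr, mem_agr]
        exact eq_comm
      · exact hT t ht t' ht' hne
    have := hTmax _ hin
    rw [card_insert_of_notMem heT] at this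
    omega
  by_cases hFe : Fy = ∅
  · refine ⟨∅, empty_subset _, ?_, i0, hi0, y i0, by simp⟩
    rw [hFe]; simp
  -- pigeonhole
  have hsub : Fy ⊆ (T ×ˢ (univ : Finset (Fin r))).biUnion
      (fun p => Fy.filter (fun e => p.2 ∉ A ∧ e p.2 = p.1 p.2)) := by
    intro e he
    obtain ⟨p, hp, h1, h2⟩ := hcov e he
    exact mem_biUnion.2 ⟨p, hp, mem_filter.2 ⟨he, h1, h2⟩⟩
  have hle : Fy.card ≤ ∑ p ∈ T ×ˢ (univ : Finset (Fin r)),
      (Fy.filter (fun e => p.2 ∉ A ∧ e p.2 = p.1 p.2)).card :=
    (card_le_card hsub).trans card_biUnion_le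
  have hTcard : (T ×ˢ (univ : Finset (Fin r))).card ≤ s * r := by
    rw [card_product, card_univ, Fintype.card_fin]
    exact Nat.mul_le_mul_right _ hTs.le
  have hex : ∃ p ∈ T ×ˢ (univ : Finset (Fin r)),
      Fy.card ≤ (s * r) * (Fy.filter (fun e => p.2 ∉ A ∧ e p.2 = p.1 p.2)).card := by
    by_contra hcon
    push Not at hcon
    have hFpos : 0 < Fy.card := card_pos.2 (nonempty_iff_ne_empty.2 hFe)
    by_cases hne : (T ×ˢ (univ : Finset (Fin r))).Nonempty
    · have h1 : ∑ p ∈ T ×ˢ (univ : Finset (Fin r)),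
          (s * r) * (Fy.filter (fun e => p.2 ∉ A ∧ e p.2 = p.1 p.2)).card <
          ∑ p ∈ T ×ˢ (univ : Finset (Fin r)), Fy.card :=
        sum_lt_sum_of_nonempty hne hcon
      rw [← mul_sum, sum_const, smul_eq_mul] at h1
      have h2 : (T ×ˢ (univ : Finset (Fin r))).card * Fy.card ≤ (s * r) * Fy.card :=
        Nat.mul_le_mul_right _ hTcard
      have h3 : (s * r) * Fy.card ≤ (s * r) * ∑ p ∈ T ×ˢ (univ : Finset (Fin r)),
        (Fy.filter (fun e => p.2 ∉ A ∧ e p.2 = p.1 p.2)).card := Nat.mul_le_mul_left _ hle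
      omega
    · rw [not_nonempty_iff_eq_empty] at hne
      rw [hne, sum_empty] at hle
      omega
  obtain ⟨p, hp, hpc⟩ := hex
  by_cases hpA : p.2 ∉ A
  · refine ⟨Fy.filter (fun e => p.2 ∉ A ∧ e p.2 = p.1 p.2), filter_subset _ _, ?_, p.2, hpA,
      p.1 p.2, fun e he => (mem_filter.1 he).2.2⟩
    refine hpc.trans (Nat.mul_le_mul_right _ (Nat.le_succ _))
  · exfalso
    have : Fy.filter (fun e => p.2 ∉ A ∧ e p.2 = p.1 p.2) = ∅ := by
      rw [filter_eq_empty_iff]
      intro e _ h
      exact hpA h.1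
    rw [this, card_empty, mul_zero] at hpc
    have hFpos : 0 < Fy.card := card_pos.2 (nonempty_iff_ne_empty.2 hFe)
    omega

/-- removal of one agreement set -/
theorem closure_one {s : ℕ} {F : Finset (Fin r → V)} {A : Finset (Fin r)} (hA : A ≠ univ)
    (hF : ∀ e ∈ F, ¬ Ker s F A e) :
    ∃ F1 ⊆ F, F.card ≤ (s * r + 1) * F1.card ∧
      ∀ e ∈ F1, ∀ e' ∈ F1, e ≠ e' → agr e e' ≠ A := by
  -- restriction map
  set ρ : (Fin r → V) → (A → V) := fun e i => e i with hρ
  have hρeq : ∀ e e' : Fin r → V, ρ e = ρ e' ↔ ∀ i ∈ A, e i = e' i := by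
    intro e e'
    constructor
    · intro h i hi
      exact congrFun h ⟨i, hi⟩
    · intro h
      funext i
      exact h i i.2
  set I : Finset (A → V) := F.image ρ with hI
  have hch : ∀ z ∈ I, ∃ G : Finset (Fin r → V),
      (G ⊆ F.filter (fun e => ρ e = z) ∧
      (F.filter (fun e => ρ e = z)).card ≤ (s * r + 1) * G.card ∧
      ∃ i ∉ A, ∃ v, ∀ e ∈ G, e i = v) := by
    intro z hz
    obtain ⟨y, hy, hyz⟩ := mem_image.1 hz
    obtain ⟨G, h1, h2, h3⟩ := fibre hA (hF y hy)
    have heq : F.filter (fun e => ∀ i ∈ A, e i = y i) = F.filter (fun e => ρ e = z) := by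
      apply filter_congr
      intro e _
      rw [← hyz, hρeq]
    rw [heq] at h1 h2
    exact ⟨G, h1, h2, h3⟩
  choose! G hG1 hG2 hG3 using hch
  refine ⟨I.biUnion G, ?_, ?_, ?_⟩
  · intro e he
    obtain ⟨z, hz, hez⟩ := mem_biUnion.1 he
    exact (mem_filter.1 (hG1 z hz hez)).1
  · have hdis : (I : Set (A → V)).PairwiseDisjoint G := by
      intro z hz z' hz' hne
      rw [Function.onFun, Finset.disjoint_left]
      intro e he he'
      apply hne
      rw [← (mem_filter.1 (hG1 z hz he)).2, ← (mem_filter.1 (hG1 z' hz' he')).2]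
    rw [card_biUnion hdis]
    have h1 : F.card = ∑ z ∈ I, (F.filter (fun e => ρ e = z)).card :=
      card_eq_sum_card_image ρ F
    rw [h1, mul_sum]
    exact sum_le_sum hG2
  · intro e he e' he' hne hag
    obtain ⟨z, hz, hez⟩ := mem_biUnion.1 he
    obtain ⟨z', hz', hez'⟩ := mem_biUnion.1 he'
    have h1 : ρ e = ρ e' := by
      rw [hρeq]
      intro i hi
      rw [← hag] at hi
      exact mem_agr.1 hi
    have h2 : ρ e = z := (mem_filter.1 (hG1 z hz hez)).2
    have h3 : ρ e' = z' := (mem_filter.1 (hG1 z' hz' hez')).2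
    have h4 : z = z' := by rw [← h2, ← h3, h1]
    subst h4
    obtain ⟨i, hi, v, hv⟩ := hG3 z hz
    apply hi
    rw [← hag, mem_agr, hv e hez, hv e' hez']

/-- removal of several agreement sets -/
theorem closure_all {s : ℕ} (𝒜 : Finset (Finset (Fin r))) :
    ∀ F : Finset (Fin r → V), (∀ A ∈ 𝒜, A ≠ univ) → (∀ A ∈ 𝒜, ∀ e ∈ F, ¬ Ker s F A e) →
    ∃ F1 ⊆ F, F.card ≤ (s * r + 1) ^ 𝒜.card * F1.card ∧
      ∀ e ∈ F1, ∀ e' ∈ F1, e ≠ e' → agr e e' ∉ 𝒜 := by
  induction 𝒜 using Finset.induction_on with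
  | empty =>
    intro F _ _
    exact ⟨F, Subset.refl _, by simp, by simp⟩
  | insert A 𝒜 hA ih =>
    intro F h1 h2
    obtain ⟨F1, hF1, hc1, hag1⟩ := closure_one (h1 A (mem_insert_self _ _))
      (h2 A (mem_insert_self _ _))
    obtain ⟨F2, hF2, hc2, hag2⟩ := ih F1 (fun B hB => h1 B (mem_insert_of_mem hB))
      (fun B hB e he hk => h2 B (mem_insert_of_mem hB) e (hF1 he) (ker_mono hF1 hk))
    refine ⟨F2, hF2.trans hF1, ?_, ?_⟩
    · rw [card_insert_of_notMem hA, pow_succ]
      calc F.card ≤ (s * r + 1) * F1.card := hc1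
        _ ≤ (s * r + 1) * ((s * r + 1) ^ 𝒜.card * F2.card) := Nat.mul_le_mul_left _ hc2
        _ = _ := by ring
    · intro e he e' he' hne hmem
      rw [mem_insert] at hmem
      rcases hmem with h | h
      · exact hag1 e (hF2 he) e' (hF2 he') hne h
      · exact hag2 e he e' he' hne h

/-- colouring by the sets that are not kernels -/
theorem colour {s : ℕ} (𝒰 : Finset (Finset (Fin r))) : ∀ n : ℕ, ∀ D : Finset (Fin r → V),
    D.card = n → (∀ D' ⊆ D, D'.Nonempty → ∃ e ∈ D', ∃ A ∈ 𝒰, ¬ Ker s D' A e) →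
    ∃ a : (Fin r → V) → Finset (Fin r), (∀ e ∈ D, a e ∈ 𝒰) ∧
      ∀ A ∈ 𝒰, ∀ e ∈ D.filter (fun e => a e = A), ¬ Ker s (D.filter (fun e => a e = A)) A e := by
  intro n
  induction n with
  | zero =>
    intro D hD _
    rw [card_eq_zero] at hD
    subst hD
    exact ⟨fun _ => ∅, by simp, by simp⟩
  | succ n ih =>
    intro D hD h
    have hne : D.Nonempty := by
      rw [← card_pos]; omega
    obtain ⟨e, he, A, hA, hker⟩ := h D (Subset.refl _) hne
    obtain ⟨a, ha1, ha2⟩ := ih (D.erase e) (by rw [card_erase_of_mem he]; omega)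
      (fun D' hD' hne' => h D' (hD'.trans (erase_subset _ _)) hne')
    refine ⟨Function.update a e A, ?_, ?_⟩
    · intro e' he'
      by_cases hee : e' = e
      · subst hee
        simpa using hA
      · rw [Function.update_of_ne hee]
        exact ha1 e' (mem_erase.2 ⟨hee, he'⟩)
    · intro B hB e' he' hk
      by_cases hBA : B = A
      · subst hBA
        have hfil : D.filter (fun x => Function.update a e B x = B) ⊆
            insert e ((D.erase e).filter (fun x => a x = B)) := by
          intro x hx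
          rw [mem_filter] at hx
          by_cases hxe : x = e
          · rw [hxe]; exact mem_insert_self _ _
          · rw [Function.update_of_ne hxe] at hx
            exact mem_insert_of_mem (mem_filter.2 ⟨mem_erase.2 ⟨hxe, hx.1⟩, hx.2⟩)
        by_cases hres : ∀ i ∈ B, e' i = e i
        · exact hker (ker_congr hres (ker_mono (filter_subset _ _) hk))
        · have hee : e' ≠ e := by
            rintro rfl
            exact hres (fun i _ => rfl)
          have he'' : e' ∈ (D.erase e).filter (fun x => a x = B) := by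
            have := hfil he'
            rw [mem_insert] at this
            exact this.resolve_left hee
          apply ha2 B hB e' he''
          obtain ⟨T, hT, h1, h2, h3⟩ := hk
          refine ⟨T, ?_, h1, h2, h3⟩
          intro t ht
          have := hfil (hT ht)
          rw [mem_insert] at this
          refine this.resolve_left ?_
          rintro rfl
          exact hres (fun i hi => (h2 t ht i hi).symm)
      · have hfil : D.filter (fun x => Function.update a e A x = B) =
            (D.erase e).filter (fun x => a x = B) := by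
          ext x
          rw [mem_filter, mem_filter, mem_erase]
          by_cases hxe : x = e
          · subst hxe
            simp [Ne.symm hBA]
          · rw [Function.update_of_ne hxe]
            simp [hxe]
        rw [hfil] at he' hk
        exact ha2 B hB e' he' hk

/-- the main claim -/
theorem main (r s : ℕ) : ∀ n : ℕ, ∃ N : ℕ, 0 < N ∧ ∀ 𝒰 : Finset (Finset (Fin r)),
    𝒰.card = n → univ ∉ 𝒰 → ∀ (V : Type) (F : Finset (Fin r → V)),
    (∀ A, A ≠ univ → A ∉ 𝒰 → ∀ e ∈ F, ¬ Ker s F A e) →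
    ∃ F' ⊆ F, ∃ J : Finset (Finset (Fin r)), Hom s F' J ∧ F.card ≤ N * F'.card := by
  intro n
  induction n with
  | zero =>
    refine ⟨(s * r + 1) ^ (2 ^ r), by positivity, ?_⟩
    intro 𝒰 h𝒰 hu V F hF
    rw [card_eq_zero] at h𝒰
    subst h𝒰
    set 𝒜 : Finset (Finset (Fin r)) := univ.filter (fun A => A ≠ univ) with h𝒜
    obtain ⟨F1, hF1, hc, hag⟩ := closure_all (s := s) 𝒜 F (fun A hA => (mem_filter.1 hA).2)
      (fun A hA => hF A (mem_filter.1 hA).2 (notMem_empty _))
    refine ⟨F1, hF1, ∅, ⟨?_, by simp, by simp⟩, ?_⟩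
    · intro e he e' he' hne
      have h1 : agr e e' ∈ 𝒜 := mem_filter.2 ⟨mem_univ _, agr_ne_univ hne⟩
      exact absurd h1 (hag e he e' he' hne)
    · refine hc.trans (Nat.mul_le_mul_right _ (Nat.pow_le_pow_right (by omega) ?_))
      refine (card_le_univ 𝒜).trans ?_
      simp
  | succ n ih =>
    obtain ⟨N, hN, ih⟩ := ih
    refine ⟨(s * r + 1) ^ (2 ^ r) * (2 * ((n + 1) * N)), by positivity, ?_⟩
    intro 𝒰 h𝒰 hu V F hF
    set 𝒜 : Finset (Finset (Fin r)) := univ.filter (fun A => A ≠ univ ∧ A ∉ 𝒰) with h𝒜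
    obtain ⟨F1, hF1, hc, hag⟩ := closure_all (s := s) 𝒜 F (fun A hA => (mem_filter.1 hA).2.1)
      (fun A hA => hF A (mem_filter.1 hA).2.1 (mem_filter.1 hA).2.2)
    have hc' : F.card ≤ (s * r + 1) ^ (2 ^ r) * F1.card := by
      refine hc.trans (Nat.mul_le_mul_right _ (Nat.pow_le_pow_right (by omega) ?_))
      refine (card_le_univ 𝒜).trans ?_
      simp
    have hag' : ∀ e ∈ F1, ∀ e' ∈ F1, e ≠ e' → agr e e' ∈ 𝒰 := by
      intro e he e' he' hne
      by_contra hcon
      exact hag e he e' he' hne (mem_filter.2 ⟨mem_univ _, agr_ne_univ hne, hcon⟩)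
    -- the union of all stable subfamilies
    set St : Finset (Fin r → V) → Prop := fun G => ∀ e ∈ G, ∀ A ∈ 𝒰, Ker s G A e with hSt
    set Gs : Finset (Fin r → V) := F1.filter (fun e => ∃ G ⊆ F1, St G ∧ e ∈ G) with hGs
    have hGsub : ∀ G ⊆ F1, St G → G ⊆ Gs := fun G hG hst e he =>
      mem_filter.2 ⟨hG he, G, hG, hst, he⟩
    have hGst : St Gs := by
      intro e he A hA
      obtain ⟨_, G, hG, hst, heG⟩ := mem_filter.1 he
      exact ker_mono (hGsub G hG hst) (hst e heG A hA)
    by_cases hbig : F1.card ≤ 2 * Gs.card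
    · refine ⟨Gs, (filter_subset _ _).trans hF1, 𝒰, ⟨?_, hGst, hu⟩, ?_⟩
      · intro e he e' he' hne
        exact hag' e (mem_filter.1 he).1 e' (mem_filter.1 he').1 hne
      · calc F.card ≤ (s * r + 1) ^ (2 ^ r) * F1.card := hc'
          _ ≤ (s * r + 1) ^ (2 ^ r) * (2 * Gs.card) := Nat.mul_le_mul_left _ hbig
          _ ≤ (s * r + 1) ^ (2 ^ r) * (2 * (((n + 1) * N) * Gs.card)) := by
            refine Nat.mul_le_mul_left _ (Nat.mul_le_mul_left _ ?_)
            exact Nat.le_mul_of_pos_left _ (by positivity)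
          _ = _ := by ring
    · push Not at hbig
      set D := F1 \ Gs with hD
      have hDF : D ⊆ F1 := sdiff_subset
      have hDc : F1.card ≤ 2 * D.card := by
        have : Gs ⊆ F1 := filter_subset _ _
        have h1 : D.card = F1.card - Gs.card := card_sdiff_of_subset this
        omega
      obtain ⟨a, ha1, ha2⟩ := colour (s := s) 𝒰 D.card D rfl (by
        intro D' hD' hne
        by_contra hcon
        push Not at hcon
        have hst : St D' := hcon
        have h1 := hGsub D' (hD'.trans hDF) hst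
        obtain ⟨x, hx⟩ := hne
        exact (mem_sdiff.1 (hD' hx)).2 (h1 hx))
      have hDpos : 0 < D.card := by omega
      -- largest colour class
      have hex : ∃ A ∈ 𝒰, D.card ≤ (n + 1) * (D.filter (fun e => a e = A)).card := by
        by_contra hcon
        push Not at hcon
        have hsum : D.card = ∑ A ∈ 𝒰, (D.filter (fun e => a e = A)).card :=
          card_eq_sum_card_fiberwise ha1
        have hne : 𝒰.Nonempty := by rw [← card_pos]; omega
        have h1 : ∑ A ∈ 𝒰, (n + 1) * (D.filter (fun e => a e = A)).card < ∑ A ∈ 𝒰, D.card :=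
          sum_lt_sum_of_nonempty hne hcon
        rw [← mul_sum, ← hsum, sum_const, smul_eq_mul, h𝒰] at h1
        exact lt_irrefl _ h1
      obtain ⟨A, hA, hAc⟩ := hex
      obtain ⟨F', hF', J, hJ, hJc⟩ := ih (𝒰.erase A) (by rw [card_erase_of_mem hA]; omega)
        (fun h => hu (mem_of_mem_erase h)) V (D.filter (fun e => a e = A)) (by
          intro B hB1 hB2 e he hk
          by_cases hBA : B = A
          · subst hBA
            exact ha2 B hA e he hk
          · have hB3 : B ∉ 𝒰 := fun h => hB2 (mem_erase.2 ⟨hBA, h⟩)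
            have hsub : D.filter (fun e => a e = A) ⊆ F :=
              (filter_subset _ _).trans (hDF.trans hF1)
            exact hF B hB1 hB3 e (hsub he) (ker_mono hsub hk))
      refine ⟨F', hF'.trans ((filter_subset _ _).trans (hDF.trans hF1)), J, hJ, ?_⟩
      calc F.card ≤ (s * r + 1) ^ (2 ^ r) * F1.card := hc'
        _ ≤ (s * r + 1) ^ (2 ^ r) * (2 * D.card) := Nat.mul_le_mul_left _ hDc
        _ ≤ (s * r + 1) ^ (2 ^ r) * (2 * ((n + 1) * (N * F'.card))) :=
            Nat.mul_le_mul_left _ (Nat.mul_le_mul_left _ (hAc.trans (Nat.mul_le_mul_left _ hJc)))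
        _ = _ := by ring

end HM

theorem hom_exists (r s : ℕ) : ∃ N : ℕ, 0 < N ∧ ∀ (V : Type) (F : Finset (Fin r → V)),
    ∃ F' ⊆ F, ∃ J : Finset (Finset (Fin r)), Hom s F' J ∧ F.card ≤ N * F'.card := by
  obtain ⟨N, hN, h⟩ := HM.main r s ((univ : Finset (Finset (Fin r))).erase univ).card
  refine ⟨N, hN, fun V F => ?_⟩
  exact h (univ.erase univ) rfl (notMem_erase _ _) V F (fun A hA1 hA2 =>
    absurd (mem_erase.2 ⟨hA1, mem_univ A⟩) hA2)

end EX
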